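import Pool.Agent.V11245.KDefs

/-!
# Everywhere large `ω₂`-Kurepa trees whose branch sets are continuous images
-/

set_option autoImplicit false

namespace Pool.Agent.Results.MP_177a3e_lc.EverywhereLargeImage

open Cardinal Set Pool.Agent.V11245.OmegaPerf Pool.Agent.V11245.KTree

universe u

/-- If `[T₀]` is a continuous image of `^{ω₂}ω₂` for some `ω₂`-Kurepa tree `T₀` (which is the case
in `L`, a model of GCH), then `[T]` is a continuous image of `^{ω₂}ω₂` for some everywhere large
`ω₂`-Kurepa tree `T`. -/
theorem result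
    (h : ∃ T₀ : Set (Node (ℵ_ 2 : Cardinal.{u})), IsKurepa T₀ ∧ IsContImage (body T₀)) :
    ∃ T : Set (Node (ℵ_ 2 : Cardinal.{u})),
      IsKurepa T ∧ EverywhereLarge T ∧ IsContImage (body T) :=
  large_of_image h

end Pool.Agent.Results.MP_177a3e_lc.EverywhereLargeImage
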